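import Mathlib

namespace BipartiteCoxeter

open Equiv

/-- The simple transposition `s_i` (`1 ≤ i ≤ n-1`) of `S_n = Perm (Fin n)`, exchanging the
(1-indexed) numbers `i` and `i+1`, i.e. the elements `i-1` and `i` of `Fin n`. -/
def s (n i : ℕ) : Perm (Fin n) :=
  if h : 1 ≤ i ∧ i < n then Equiv.swap ⟨i - 1, by omega⟩ ⟨i, h.2⟩ else 1

/-- The product `s_{i_1} ⋯ s_{i_m}` of a word. -/
def wordProd (n : ℕ) (w : List ℕ) : Perm (Fin n) := (w.map (s n)).prod

/-- One commutation move: exchange two adjacent letters `a,b` with `|a-b| ≥ 2`. -/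
inductive CommStep : List ℕ → List ℕ → Prop
  | swap (l₁ l₂ : List ℕ) (a b : ℕ) (h : a + 2 ≤ b ∨ b + 2 ≤ a) :
      CommStep (l₁ ++ a :: b :: l₂) (l₁ ++ b :: a :: l₂)

/-- The commutation class of a word. -/
def CommClass (w : List ℕ) : Set (List ℕ) := {v | Relation.ReflTransGen CommStep w v}

/-- `Pre C`: all products of initial segments of words of `C`. -/
def Pre (n : ℕ) (C : Set (List ℕ)) : Set (Perm (Fin n)) :=
  {x | ∃ w ∈ C, ∃ v, v <+: w ∧ x = wordProd n v}

/-- The `r`-th block: the letters `i ≤ n-1` with `i ≡ r (mod 2)`, in increasing order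
(so `c_odd` for `r` odd and `c_even` for `r` even). -/
def block (n r : ℕ) : List ℕ := (List.range' 1 (n - 1)).filter (fun j => j % 2 = r % 2)

/-- The concatenation of the first `R` alternating blocks `c_odd, c_even, c_odd, …`. -/
def blocks (n R : ℕ) : List ℕ := (List.range' 1 R).flatMap (block n)

/-! ### trajectories -/

def V (n m i : ℤ) : ℤ :=
  if (i + m) % 2 = 1 then (if m < i then i - m else m + 1 - i)
  else (if i + m ≤ n then i + m else 2 * n + 1 - i - m)

lemma V_step1 (n r j : ℤ) (h : (r - j) % 2 = 0) : V n r j = V n (r - 1) (j + 1) := by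
  unfold V; split_ifs <;> omega

lemma V_step2 (n r j : ℤ) (h : (r - j) % 2 = 0) : V n r (j + 1) = V n (r - 1) j := by
  unfold V; split_ifs <;> omega

lemma V_b1 (n r : ℤ) (h : (r - 1) % 2 = 0) (hr : 1 ≤ r) (hn : r + 1 ≤ n) :
    V n (r + 1) 1 = V n r 1 := by
  unfold V; split_ifs <;> omega

lemma V_bn (n r : ℤ) (h : (r - (n - 1)) % 2 = 0) (hr : 1 ≤ r) (hn : r ≤ n) :
    V n (r + 1) n = V n r n := by
  unfold V; split_ifs <;> omega

lemma V_lt (n m j : ℤ) (h : (j + m) % 2 = 1) (h0 : 0 ≤ m) (h1 : m ≤ n - 1) (hj : 1 ≤ j)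
    (hj' : j < n) : V n m j < V n m (j + 1) := by
  unfold V; split_ifs <;> omega

lemma V_uniq (n m j m' j' : ℤ) (h : (j + m) % 2 = 1) (h0 : 0 ≤ m) (h1 : m ≤ n - 1) (hj : 1 ≤ j)
    (hj' : j < n) (k : (j' + m') % 2 = 1) (k0 : 0 ≤ m') (k1 : m' ≤ n - 1) (kj : 1 ≤ j')
    (kj' : j' < n) (e1 : V n m j = V n m' j') (e2 : V n m (j + 1) = V n m' (j' + 1)) :
    m = m' ∧ j = j' := by
  unfold V at e1 e2; split_ifs at e1 e2 <;> omega

/-! ### states -/

def Valid (n p : ℕ) (t : ℕ → ℤ) : Prop :=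
  (∀ j, 1 ≤ j → j < n → -1 ≤ t j ∧ t j ≤ 2 * p ∧ (t j - j) % 2 = 0) ∧
  (∀ j, 1 ≤ j → j + 1 < n → t j - t (j + 1) = 1 ∨ t (j + 1) - t j = 1)

def tau (n : ℕ) (t : ℕ → ℤ) (i : ℕ) : ℤ :=
  if i = 1 then t 1 + 1 else if i = n then t (n - 1) + 1 else max (t (i - 1)) (t i)

def Rep (n : ℕ) (t : ℕ → ℤ) (x : Perm (Fin n)) : Prop :=
  ∀ i : Fin n, ((x i : ℕ) : ℤ) + 1 = V n (tau n t (i + 1)) ((i : ℕ) + 1)

def Cr (n p : ℕ) (t : ℕ → ℤ) (a b : ℕ) : Prop :=
  ∃ (r : ℤ) (j : ℕ), 1 ≤ j ∧ j < n ∧ 1 ≤ r ∧ r ≤ 2 * p ∧ (r - j) % 2 = 0 ∧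
    V n (r - 1) j = a + 1 ∧ V n (r - 1) (j + 1) = b + 1 ∧ r ≤ t j

def Cross (n p : ℕ) (t : ℕ → ℤ) (x : Perm (Fin n)) : Prop :=
  ∀ a b : Fin n, a < b → (x⁻¹ b < x⁻¹ a ↔ Cr n p t a b)

lemma Rep_unique {n : ℕ} {t : ℕ → ℤ} {x y : Perm (Fin n)} (hx : Rep n t x) (hy : Rep n t y) :
    x = y := by
  ext i
  have h1 := hx i
  have h2 := hy i
  omega

lemma s_val (n j : ℕ) (hj : 1 ≤ j) (hjn : j < n) (i : Fin n) :
    ((s n j i : Fin n) : ℕ) = if (i : ℕ) + 1 = j then j else if (i : ℕ) = j then j - 1 else i := by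
  unfold s
  rw [dif_pos ⟨hj, hjn⟩]
  by_cases c1 : (i : ℕ) + 1 = j
  · rw [if_pos c1]
    have : i = ⟨j - 1, by omega⟩ := Fin.ext (by simp only; omega)
    rw [this, Equiv.swap_apply_left]
  · rw [if_neg c1]
    by_cases c2 : (i : ℕ) = j
    · rw [if_pos c2]
      have : i = ⟨j, hjn⟩ := Fin.ext c2
      rw [this, Equiv.swap_apply_right]
    · rw [if_neg c2, Equiv.swap_apply_of_ne_of_ne]
      · intro h; apply c1; rw [h]; simp only; omega
      · intro h; apply c2; rw [h]

/-- effect of adding one element in column `j` -/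
lemma Rep_step (n p : ℕ) (hpn : 2 * p ≤ n) (t t' : ℕ → ℤ) (x : Perm (Fin n)) (j : ℕ)
    (hj : 1 ≤ j) (hjn : j < n) (ht : Valid n p t) (ht' : Valid n p t')
    (h1 : t' j = t j + 2) (h2 : ∀ k, k ≠ j → t' k = t k) (hx : Rep n t x) :
    Rep n t' (x * s n j) := by
  have hb := ht.1 j hj hjn
  have hb' := ht'.1 j hj hjn
  have hup : j + 1 < n → t (j + 1) = t j + 1 := by
    intro h
    have e1 := ht.2 j hj h
    have e2 := ht'.2 j hj h
    rw [h1, h2 (j + 1) (by omega)] at e2
    omega
  have hdn : 1 < j → t (j - 1) = t j + 1 := by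
    intro h
    have e1 := ht.2 (j - 1) (by omega) (by omega)
    have e2 := ht'.2 (j - 1) (by omega) (by omega)
    rw [show j - 1 + 1 = j by omega] at e1 e2
    rw [h1, h2 (j - 1) (by omega)] at e2
    omega
  have T1 : tau n t j = t j + 1 := by
    unfold tau
    split_ifs with a b
    · subst a; rfl
    · omega
    · rw [hdn (by omega)]; exact max_eq_left (by omega)
  have T2 : tau n t (j + 1) = t j + 1 := by
    unfold tau
    split_ifs with a b
    · omega
    · rw [show n - 1 = j by omega]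
    · rw [show j + 1 - 1 = j by omega, hup (by omega)]; exact max_eq_right (by omega)
  have hr0 : (1 : ℤ) ≤ t j + 2 := by omega
  have hrn : t j + 2 ≤ n := by
    have : (2 * p : ℤ) ≤ n := by exact_mod_cast hpn
    omega
  have N1 : V n (tau n t' j) j = V n (t j + 2) j := by
    unfold tau
    split_ifs with a b
    · subst a
      rw [h1]
      have := V_b1 n (t 1 + 2) (by omega) (by omega) (by omega)
      exact_mod_cast this
    · omega
    · rw [h1, h2 (j - 1) (by omega), hdn (by omega), max_eq_right (by omega)]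
  have N2 : V n (tau n t' (j + 1)) ((j : ℤ) + 1) = V n (t j + 2) (j + 1) := by
    unfold tau
    split_ifs with a b
    · omega
    · rw [show n - 1 = j by omega, h1]
      have hh : ((j : ℤ) + 1) = (n : ℤ) := by exact_mod_cast b
      rw [hh]
      exact V_bn n (t j + 2) (by omega) hr0 hrn
    · rw [show j + 1 - 1 = j by omega, h1, h2 (j + 1) (by omega), hup (by omega),
        max_eq_left (by omega)]
  intro i
  rw [Perm.mul_apply]
  by_cases c1 : (i : ℕ) + 1 = j
  · have hs : s n j i = ⟨j, hjn⟩ := by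
      apply Fin.ext; rw [s_val n j hj hjn]; simp [c1]
    rw [hs]
    have := hx ⟨j, hjn⟩
    simp only at this
    rw [this, T2, c1]
    have c1' : ((i : ℕ) : ℤ) + 1 = j := by exact_mod_cast c1
    rw [c1', N1, V_step1 n (t j + 2) j (by omega)]
    congr 1; omega
  · by_cases c2 : (i : ℕ) = j
    · have hs : s n j i = ⟨j - 1, by omega⟩ := by
        apply Fin.ext; rw [s_val n j hj hjn]; simp [c2]
      rw [hs]
      have := hx ⟨j - 1, by omega⟩
      simp only at this
      rw [this, show j - 1 + 1 = j by omega, T1, c2, N2, V_step2 n (t j + 2) j (by omega)]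
      rw [show ((j - 1 : ℕ) : ℤ) + 1 = j by omega]
      congr 1; omega
    · have hs : s n j i = i := by
        apply Fin.ext; rw [s_val n j hj hjn]; simp [c1, c2]
      rw [hs, hx i]
      congr 1
      unfold tau
      split_ifs with a b
      · rw [h2 1 (by omega)]
      · rw [h2 (n - 1) (by omega)]
      · rw [h2 _ (by omega), h2 _ (by omega)]

lemma Cross_step (n p : ℕ) (hpn : 2 * p ≤ n) (t t' : ℕ → ℤ) (x : Perm (Fin n)) (j : ℕ)
    (hj : 1 ≤ j) (hjn : j < n) (ht : Valid n p t) (ht' : Valid n p t')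
    (h1 : t' j = t j + 2) (h2 : ∀ k, k ≠ j → t' k = t k) (hx : Rep n t x)
    (hc : Cross n p t x) : Cross n p t' (x * s n j) := by
  have hb := ht.1 j hj hjn
  have hb' := ht'.1 j hj hjn
  have hup : j + 1 < n → t (j + 1) = t j + 1 := by
    intro h
    have e1 := ht.2 j hj h
    have e2 := ht'.2 j hj h
    rw [h1, h2 (j + 1) (by omega)] at e2
    omega
  have hdn : 1 < j → t (j - 1) = t j + 1 := by
    intro h
    have e1 := ht.2 (j - 1) (by omega) (by omega)
    have e2 := ht'.2 (j - 1) (by omega) (by omega)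
    rw [show j - 1 + 1 = j by omega] at e1 e2
    rw [h1, h2 (j - 1) (by omega)] at e2
    omega
  have T1 : tau n t j = t j + 1 := by
    unfold tau
    split_ifs with a b
    · subst a; rfl
    · omega
    · rw [hdn (by omega)]; exact max_eq_left (by omega)
  have T2 : tau n t (j + 1) = t j + 1 := by
    unfold tau
    split_ifs with a b
    · omega
    · rw [show n - 1 = j by omega]
    · rw [show j + 1 - 1 = j by omega, hup (by omega)]; exact max_eq_right (by omega)
  have hpn' : (2 * p : ℤ) ≤ n := by exact_mod_cast hpn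
  -- values of x at the two swapped positions
  have X1 : ((x ⟨j - 1, by omega⟩ : ℕ) : ℤ) + 1 = V n (t j + 1) j := by
    have := hx ⟨j - 1, by omega⟩
    simp only at this
    rw [this, show j - 1 + 1 = j by omega, T1]
    rw [show ((j - 1 : ℕ) : ℤ) + 1 = j by omega]
  have X2 : ((x ⟨j, hjn⟩ : ℕ) : ℤ) + 1 = V n (t j + 1) (j + 1) := by
    have := hx ⟨j, hjn⟩
    simp only at this
    rw [this, T2]
  have hlt : V n (t j + 1) j < V n (t j + 1) (j + 1) :=
    V_lt n (t j + 1) j (by omega) (by omega) (by omega) (by omega) (by omega)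
  intro a b hab
  have hinv : (x * s n j)⁻¹ = s n j * x⁻¹ := by
    rw [mul_inv_rev]
    congr 1
    unfold s
    rw [dif_pos ⟨hj, hjn⟩, Equiv.swap_inv]
  rw [hinv, Perm.mul_apply, Perm.mul_apply]
  set A := x⁻¹ a with hA
  set B := x⁻¹ b with hB
  have hxA : x A = a := by rw [hA]; simp
  have hxB : x B = b := by rw [hB]; simp
  have hABne : A ≠ B := by
    intro h; rw [h, hxB] at hxA; exact absurd hxA (ne_of_gt hab)
  have hABv : (A : ℕ) ≠ (B : ℕ) := fun h => hABne (Fin.ext h)
  have IH := hc a b hab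
  rw [← hA, ← hB] at IH
  rw [Fin.lt_def, s_val n j hj hjn, s_val n j hj hjn]
  by_cases k1 : (A : ℕ) + 1 = j ∧ (B : ℕ) = j
  · -- the pair is swapped now
    constructor
    · intro _
      refine ⟨t j + 2, j, hj, hjn, by omega, by omega, by omega, ?_, ?_, by omega⟩
      · rw [show t j + 2 - 1 = t j + 1 by ring, ← X1]
        have : (⟨j - 1, by omega⟩ : Fin n) = A := by apply Fin.ext; simp; omega
        rw [this, hxA]
      · rw [show t j + 2 - 1 = t j + 1 by ring, ← X2]
        have : (⟨j, hjn⟩ : Fin n) = B := by apply Fin.ext; simp; omega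
        rw [this, hxB]
    · intro _
      rw [if_pos k1.1, if_neg (by omega), if_pos k1.2]
      omega
  · by_cases k2 : (B : ℕ) + 1 = j ∧ (A : ℕ) = j
    · exfalso
      have e1 : (⟨j - 1, by omega⟩ : Fin n) = B := by apply Fin.ext; simp; omega
      have e2 : (⟨j, hjn⟩ : Fin n) = A := by apply Fin.ext; simp; omega
      rw [e1, hxB] at X1
      rw [e2, hxA] at X2
      have : ((a : ℕ) : ℤ) < (b : ℕ) := by exact_mod_cast hab
      omega
    · have L : ((if (B : ℕ) + 1 = j then j else if (B : ℕ) = j then j - 1 else (B : ℕ)) <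
          (if (A : ℕ) + 1 = j then j else if (A : ℕ) = j then j - 1 else (A : ℕ))) ↔ B < A := by
        rw [Fin.lt_def]
        split_ifs <;> omega
      rw [L, IH]
      constructor
      · rintro ⟨r, q, q1, q2, q3, q4, q5, q6, q7, q8⟩
        refine ⟨r, q, q1, q2, q3, q4, q5, q6, q7, ?_⟩
        by_cases hq : q = j
        · subst hq; omega
        · rw [h2 q hq]; exact q8
      · rintro ⟨r, q, q1, q2, q3, q4, q5, q6, q7, q8⟩
        refine ⟨r, q, q1, q2, q3, q4, q5, q6, q7, ?_⟩
        by_cases hq : q = j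
        · subst hq
          by_contra hcon
          have hr : r = t q + 2 := by omega
          rw [hr, show t q + 2 - 1 = t q + 1 by ring] at q6 q7
          rw [← X1] at q6
          rw [← X2] at q7
          have e1 : x ⟨q - 1, by omega⟩ = a := by apply Fin.ext; omega
          have e2 : x ⟨q, hjn⟩ = b := by apply Fin.ext; omega
          apply k1
          constructor
          · have : A = ⟨q - 1, by omega⟩ := by rw [hA, ← e1]; simp
            rw [this]; simp; omega
          · have : B = ⟨q, hjn⟩ := by rw [hB, ← e2]; simp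
            rw [this]
        · rw [h2 q hq] at q8; exact q8

end BipartiteCoxeter
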