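import Pool.Agent.V11166.Bip.Words

namespace BipartiteCoxeter

open Equiv

/-! ### moving letters: the stable partition lemma -/

lemma CommStep.cons {u v : List ℕ} (x : ℕ) (h : CommStep u v) : CommStep (x :: u) (x :: v) := by
  obtain ⟨l₁, l₂, a, b, hab⟩ := h
  exact CommStep.swap (x :: l₁) l₂ a b hab

lemma rtg_cons {u v : List ℕ} (x : ℕ) (h : Relation.ReflTransGen CommStep u v) :
    Relation.ReflTransGen CommStep (x :: u) (x :: v) := by
  induction h with
  | refl => exact Relation.ReflTransGen.refl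
  | tail _ h2 ih => exact ih.tail (h2.cons x)

lemma rtg_move (x : ℕ) (m rest : List ℕ) (h : ∀ y ∈ m, x + 2 ≤ y ∨ y + 2 ≤ x) :
    Relation.ReflTransGen CommStep (x :: (m ++ rest)) (m ++ x :: rest) := by
  induction m with
  | nil => exact Relation.ReflTransGen.refl
  | cons y m ih =>
    have h1 : CommStep (x :: y :: (m ++ rest)) (y :: x :: (m ++ rest)) :=
      CommStep.swap [] (m ++ rest) x y (h y (by simp))
    have h2 := ih (fun z hz => h z (by simp [hz]))
    exact Relation.ReflTransGen.head h1 (rtg_cons y h2)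

lemma rtg_partition (I : ℕ × ℕ → Bool) (l : List (ℕ × ℕ))
    (h : l.Pairwise (fun x y => I x = false → I y = true → (x.2 + 2 ≤ y.2 ∨ y.2 + 2 ≤ x.2))) :
    Relation.ReflTransGen CommStep (l.map Prod.snd)
      ((l.filter I).map Prod.snd ++ (l.filter (fun x => !I x)).map Prod.snd) := by
  induction l with
  | nil => exact Relation.ReflTransGen.refl
  | cons x l ih =>
    rw [List.pairwise_cons] at h
    have ih' := rtg_cons x.2 (ih h.2)
    rw [List.map_cons]
    by_cases hx : I x = true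
    · rw [List.filter_cons_of_pos hx, List.filter_cons_of_neg (by simp [hx])]
      simpa using ih'
    · have hx' : I x = false := by simpa using hx
      rw [List.filter_cons_of_neg hx, List.filter_cons_of_pos (by simp [hx'])]
      refine ih'.trans ?_
      rw [List.map_cons]
      apply rtg_move
      intro y hy
      rw [List.mem_map] at hy
      obtain ⟨z, hz, rfl⟩ := hy
      rw [List.mem_filter] at hz
      exact h.1 z hz.1 hx' hz.2

/-! ### the heap -/

def hw (n R : ℕ) : List (ℕ × ℕ) :=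
  (List.range' 1 R).flatMap (fun r => (block n r).map (fun j => (r, j)))

lemma hw_map (n R : ℕ) : (hw n R).map Prod.snd = blocks n R := by
  unfold hw blocks
  rw [List.map_flatMap]
  congr 1
  funext r
  rw [List.map_map]
  simp [Function.comp_def]

lemma mem_block {n r j : ℕ} : j ∈ block n r ↔ (1 ≤ j ∧ j < n ∧ j % 2 = r % 2) := by
  unfold block
  rw [List.mem_filter, List.mem_range'_1]
  simp
  omega

lemma mem_hw {n R : ℕ} {x : ℕ × ℕ} : x ∈ hw n R ↔
    (1 ≤ x.1 ∧ x.1 ≤ R ∧ 1 ≤ x.2 ∧ x.2 < n ∧ x.2 % 2 = x.1 % 2) := by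
  unfold hw
  rw [List.mem_flatMap]
  constructor
  · rintro ⟨r, hr, hx⟩
    rw [List.mem_range'_1] at hr
    rw [List.mem_map] at hx
    obtain ⟨j, hj, rfl⟩ := hx
    rw [mem_block] at hj
    exact ⟨hr.1, by omega, hj.1, hj.2.1, hj.2.2⟩
  · rintro ⟨h1, h2, h3, h4, h5⟩
    refine ⟨x.1, ?_, ?_⟩
    · rw [List.mem_range'_1]; omega
    · rw [List.mem_map]
      exact ⟨x.2, mem_block.mpr ⟨h3, h4, h5⟩, rfl⟩

lemma hw_pairwise (n R : ℕ) : (hw n R).Pairwise (fun x y => x.1 ≤ y.1) := by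
  unfold hw
  rw [List.pairwise_flatMap]
  constructor
  · intro r _
    rw [List.pairwise_map]
    apply List.Pairwise.imp (R := fun _ _ => True)
    · intro _ _ _; exact le_rfl
    · exact List.pairwise_of_forall (fun _ _ => trivial)
  · have := List.pairwise_lt_range' (s := 1) (n := R) (step := 1)
    apply this.imp
    intro a b hab x hx y hy
    rw [List.mem_map] at hx hy
    obtain ⟨_, _, rfl⟩ := hx
    obtain ⟨_, _, rfl⟩ := hy
    exact le_of_lt hab

/-- membership in the order ideal of a state -/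
def I (t : ℕ → ℤ) (x : ℕ × ℕ) : Bool := decide ((x.1 : ℤ) ≤ t x.2)

def fw (n R : ℕ) (t : ℕ → ℤ) : List ℕ := ((hw n R).filter (I t)).map Prod.snd

def S (n p : ℕ) : Set (ℕ → ℤ) := {t | Valid n p t ∧ ∀ j, ¬ (1 ≤ j ∧ j < n) → t j = 0}

lemma fw_class (n p : ℕ) (t : ℕ → ℤ) (ht : Valid n p t) :
    fw n (2 * p) t ++ ((hw n (2 * p)).filter (fun x => !I t x)).map Prod.snd ∈
      CommClass (blocks n (2 * p)) := by
  change Relation.ReflTransGen CommStep _ _
  rw [← hw_map]
  apply rtg_partition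
  apply (hw_pairwise n (2 * p)).imp_of_mem
  intro x y hx hy hxy h1 h2
  rw [mem_hw] at hx hy
  unfold I at h1 h2
  rw [decide_eq_false_iff_not] at h1
  rw [decide_eq_true_eq] at h2
  have b1 := ht.1 x.2 hx.2.2.1 hx.2.2.2.1
  have b2 := ht.1 y.2 hy.2.2.1 hy.2.2.2.1
  by_contra hcon
  have hc : y.2 = x.2 ∨ y.2 = x.2 + 1 ∨ x.2 = y.2 + 1 := by omega
  rcases hc with hc | hc | hc
  · rw [hc] at h2; omega
  · have := ht.2 x.2 hx.2.2.1 (by omega)
    rw [hc] at h2 b2
    omega
  · have := ht.2 y.2 hy.2.2.1 (by omega)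
    rw [hc] at h1 b1
    omega

lemma fw_succ (n R : ℕ) (t : ℕ → ℤ) : fw n (R + 1) t =
    fw n R t ++ (block n (R + 1)).filter (fun j => decide (((R + 1 : ℕ) : ℤ) ≤ t j)) := by
  unfold fw hw
  rw [List.range'_1_concat, List.flatMap_append, List.filter_append, List.map_append]
  congr 1
  simp only [List.flatMap_cons, List.flatMap_nil, List.append_nil, List.filter_map, List.map_map]
  rw [Nat.add_comm 1 R]
  simp [Function.comp_def, I]

lemma count_fw (n R : ℕ) (t : ℕ → ℤ) (j : ℕ) (hj : 1 ≤ j) (hjn : j < n) (h1 : -1 ≤ t j)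
    (h2 : (t j - j) % 2 = 0) :
    2 * ((fw n R t).count j : ℤ) - ((j % 2 : ℕ) : ℤ) =
      if t j ≤ R then t j else (if ((R : ℤ) - j) % 2 = 0 then (R : ℤ) else R - 1) := by
  induction R with
  | zero =>
    have : fw n 0 t = [] := by unfold fw hw; simp
    rw [this]
    simp only [List.count_nil]
    split_ifs <;> omega
  | succ R ih =>
    rw [fw_succ, List.count_append]
    have hnd : (List.filter (fun j => decide (((R + 1 : ℕ) : ℤ) ≤ t j)) (block n (R + 1))).Nodup := by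
      apply List.Nodup.filter
      unfold block
      apply List.Nodup.filter
      exact List.nodup_range' 
    rw [hnd.count]
    have hm : (j ∈ List.filter (fun j => decide (((R + 1 : ℕ) : ℤ) ≤ t j)) (block n (R + 1))) ↔
        (j % 2 = (R + 1) % 2 ∧ ((R + 1 : ℕ) : ℤ) ≤ t j) := by
      rw [List.mem_filter, mem_block]
      simp only [decide_eq_true_eq]
      constructor
      · rintro ⟨⟨_, _, h⟩, h'⟩; exact ⟨h, h'⟩
      · rintro ⟨h, h'⟩; exact ⟨⟨hj, hjn, h⟩, h'⟩
    by_cases hc : j ∈ List.filter (fun j => decide (((R + 1 : ℕ) : ℤ) ≤ t j)) (block n (R + 1))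
    · rw [if_pos hc]
      rw [hm] at hc
      push_cast at ih hc ⊢
      split_ifs at ih ⊢ <;> omega
    · rw [if_neg hc]
      rw [hm] at hc
      push_cast at ih hc ⊢
      split_ifs at ih ⊢ <;> omega

lemma st_fw (n p : ℕ) (t : ℕ → ℤ) (ht : t ∈ S n p) : st n (fw n (2 * p) t) = t := by
  funext j
  by_cases hj : 1 ≤ j ∧ j < n
  · have b := ht.1.1 j hj.1 hj.2
    unfold st
    rw [if_pos hj, count_fw n (2 * p) t j hj.1 hj.2 b.1 b.2.2, if_pos]
    push_cast
    exact b.2.1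
  · unfold st
    rw [if_neg hj]
    exact (ht.2 j hj).symm

/-- The domain `D_{n,p}`. -/
def D (n p : ℕ) : Set (Perm (Fin n)) := Pre n (CommClass (blocks n (2 * p)))

def Phi (n p : ℕ) (t : ℕ → ℤ) : Perm (Fin n) := wordProd n (fw n (2 * p) t)

lemma Phi_spec (n p : ℕ) (hpn : 2 * p ≤ n) (t : ℕ → ℤ) (ht : t ∈ S n p) :
    Rep n t (Phi n p t) ∧ Cross n p t (Phi n p t) ∧ Phi n p t ∈ D n p := by
  have hc := fw_class n p t ht.1
  have hg := Good_class (blocks_good n p (2 * p) le_rfl).1 hc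
  have hg' : Good n p (fw n (2 * p) t) := hg.ofPre (List.prefix_append _ _)
  have hm := main_induct n p hpn _ hg'
  rw [st_fw n p t ht] at hm
  exact ⟨hm.1, hm.2, _, hc, _, List.prefix_append _ _, rfl⟩

lemma st_mem_S (n p : ℕ) (u : List ℕ) (hu : Good n p u) : st n u ∈ S n p := by
  refine ⟨hu.2 u List.prefix_rfl, ?_⟩
  intro j hj
  unfold st
  rw [if_neg hj]

lemma D_eq (n p : ℕ) (hpn : 2 * p ≤ n) : D n p = Phi n p '' S n p := by
  ext x
  constructor
  · rintro ⟨w, hw, v, hv, rfl⟩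
    have hg := (Good_class (blocks_good n p (2 * p) le_rfl).1 hw).ofPre hv
    have hm := main_induct n p hpn _ hg
    exact ⟨st n v, st_mem_S n p v hg,
      Rep_unique (Phi_spec n p hpn _ (st_mem_S n p v hg)).1 hm.1⟩
  · rintro ⟨t, ht, rfl⟩
    exact (Phi_spec n p hpn t ht).2.2

/-- `a` precedes `b` in the linear order encoded by `x`. -/
def Before {n : ℕ} (x : Perm (Fin n)) (a b : Fin n) : Prop := x⁻¹ a < x⁻¹ b

lemma not_before {n : ℕ} (x : Perm (Fin n)) (a b : Fin n) (hab : a ≠ b) :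
    ¬ Before x a b ↔ Before x b a := by
  unfold Before
  rw [not_lt]
  constructor
  · intro h
    exact lt_of_le_of_ne h (fun e => hab ((x⁻¹).injective e).symm)
  · exact le_of_lt

lemma before_iff (n p : ℕ) (hpn : 2 * p ≤ n) (t : ℕ → ℤ) (x : Perm (Fin n))
    (hx : Cross n p t x) (a b : Fin n) (hab : a < b) (r : ℤ) (j : ℕ)
    (h1 : 1 ≤ j) (h2 : j < n) (h3 : 1 ≤ r) (h4 : r ≤ 2 * p) (h5 : (r - j) % 2 = 0)
    (h6 : V n (r - 1) j = a + 1) (h7 : V n (r - 1) (j + 1) = b + 1) :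
    Before x b a ↔ r ≤ t j := by
  unfold Before
  rw [hx a b hab]
  have hpn' : (2 * p : ℤ) ≤ n := by exact_mod_cast hpn
  constructor
  · rintro ⟨r', j', k1, k2, k3, k4, k5, k6, k7, k8⟩
    have := V_uniq n (r - 1) j (r' - 1) j' (by omega) (by omega) (by omega) (by omega) (by omega)
      (by omega) (by omega) (by omega) (by omega) (by omega) (by rw [h6, k6]) (by rw [h7, k7])
    obtain ⟨e1, e2⟩ := this
    have e1' : r = r' := by omega
    have e2' : j = j' := by exact_mod_cast e2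
    rw [e1', e2']; exact k8
  · intro h
    exact ⟨r, j, h1, h2, h3, h4, h5, h6, h7, h⟩

/-- every heap element is the crossing of some pair -/
lemma exists_pair (n : ℕ) (r : ℤ) (j : ℕ) (h1 : 1 ≤ j) (h2 : j < n) (h3 : 1 ≤ r) (h4 : r ≤ n)
    (h5 : (r - j) % 2 = 0) : ∃ a b : Fin n, a < b ∧ V n (r - 1) j = a + 1 ∧
      V n (r - 1) (j + 1) = b + 1 := by
  have e1 : 1 ≤ V n (r - 1) j ∧ V n (r - 1) j ≤ n := by
    unfold V; split_ifs <;> omega
  have e2 : 1 ≤ V n (r - 1) (j + 1) ∧ V n (r - 1) (j + 1) ≤ n := by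
    unfold V; split_ifs <;> omega
  have e3 := V_lt n (r - 1) j (by omega) (by omega) (by omega) (by omega) (by omega)
  refine ⟨⟨(V n (r - 1) j - 1).toNat, by omega⟩, ⟨(V n (r - 1) (j + 1) - 1).toNat, by omega⟩,
    ?_, ?_, ?_⟩
  · rw [Fin.mk_lt_mk]; omega
  · simp only; omega
  · simp only; omega

lemma Phi_inj (n p : ℕ) (hpn : 2 * p ≤ n) : Set.InjOn (Phi n p) (S n p) := by
  intro t ht t' ht' he
  obtain ⟨_, c1, _⟩ := Phi_spec n p hpn t ht
  obtain ⟨_, c2, _⟩ := Phi_spec n p hpn t' ht'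
  rw [← he] at c2
  have key : ∀ (r : ℤ) (j : ℕ), 1 ≤ j → j < n → 1 ≤ r → r ≤ 2 * p → (r - j) % 2 = 0 →
      (r ≤ t j ↔ r ≤ t' j) := by
    intro r j h1 h2 h3 h4 h5
    have hpn' : (2 * p : ℤ) ≤ n := by exact_mod_cast hpn
    obtain ⟨a, b, hab, ha, hb⟩ := exists_pair n r j h1 h2 h3 (by omega) h5
    rw [← before_iff n p hpn t _ c1 a b hab r j h1 h2 h3 h4 h5 ha hb,
      ← before_iff n p hpn t' _ c2 a b hab r j h1 h2 h3 h4 h5 ha hb]
  funext j
  by_cases hj : 1 ≤ j ∧ j < n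
  · have b1 := ht.1.1 j hj.1 hj.2
    have b2 := ht'.1.1 j hj.1 hj.2
    by_contra hne
    rcases lt_or_gt_of_ne hne with h | h
    · have := key (t' j) j hj.1 hj.2 (by omega) b2.2.1 b2.2.2
      omega
    · have := key (t j) j hj.1 hj.2 (by omega) b1.2.1 b1.2.2
      omega
  · rw [ht.2 j hj, ht'.2 j hj]

lemma S_finite (n p : ℕ) (hpn : 2 * p ≤ n) : (S n p).Finite :=
  Set.Finite.of_injOn (f := Phi n p) (t := Set.univ) (fun _ _ => Set.mem_univ _) (Phi_inj n p hpn)
    Set.finite_univ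

/-! ### reflection -/

open Classical in
noncomputable def refl (n : ℕ) (ℓ : ℤ) (i : ℕ) (t : ℕ → ℤ) : ℕ → ℤ := fun j =>
  if (1 ≤ j ∧ j < n) ∧ (∀ k, min i j ≤ k → k ≤ max i j → t k ≠ ℓ) then 2 * ℓ - t j else t j

lemma refl_pos (n : ℕ) (ℓ : ℤ) (i : ℕ) (t : ℕ → ℤ) (j : ℕ)
    (hc : (1 ≤ j ∧ j < n) ∧ (∀ k, min i j ≤ k → k ≤ max i j → t k ≠ ℓ)) :
    refl n ℓ i t j = 2 * ℓ - t j := by
  unfold refl; rw [if_pos hc]

lemma refl_neg (n : ℕ) (ℓ : ℤ) (i : ℕ) (t : ℕ → ℤ) (j : ℕ)
    (hc : ¬ ((1 ≤ j ∧ j < n) ∧ (∀ k, min i j ≤ k → k ≤ max i j → t k ≠ ℓ))) :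
    refl n ℓ i t j = t j := by
  unfold refl; rw [if_neg hc]

lemma refl_eq_iff (n : ℕ) (ℓ : ℤ) (i : ℕ) (t : ℕ → ℤ) (k : ℕ) :
    refl n ℓ i t k = ℓ ↔ t k = ℓ := by
  unfold refl
  split_ifs <;> constructor <;> intro h <;> omega

lemma refl_refl (n : ℕ) (ℓ : ℤ) (i : ℕ) (t : ℕ → ℤ) : refl n ℓ i (refl n ℓ i t) = t := by
  funext j
  by_cases hc : (1 ≤ j ∧ j < n) ∧ (∀ k, min i j ≤ k → k ≤ max i j → t k ≠ ℓ)
  · have h1 : refl n ℓ i t j = 2 * ℓ - t j := by unfold refl; rw [if_pos hc]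
    have hc' : (1 ≤ j ∧ j < n) ∧
        (∀ k, min i j ≤ k → k ≤ max i j → refl n ℓ i t k ≠ ℓ) :=
      ⟨hc.1, fun k hk1 hk2 h => hc.2 k hk1 hk2 ((refl_eq_iff n ℓ i t k).mp h)⟩
    have h2 : refl n ℓ i (refl n ℓ i t) j = 2 * ℓ - refl n ℓ i t j :=
      refl_pos n ℓ i _ j hc'
    rw [h2, h1]; ring
  · have h1 : refl n ℓ i t j = t j := by unfold refl; rw [if_neg hc]
    have hc' : ¬ ((1 ≤ j ∧ j < n) ∧
        (∀ k, min i j ≤ k → k ≤ max i j → refl n ℓ i t k ≠ ℓ)) := by
      intro h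
      exact hc ⟨h.1, fun k hk1 hk2 h' => h.2 k hk1 hk2 ((refl_eq_iff n ℓ i t k).mpr h')⟩
    have h2 : refl n ℓ i (refl n ℓ i t) j = refl n ℓ i t j :=
      refl_neg n ℓ i _ j hc'
    rw [h2, h1]

lemma refl_walk (n p : ℕ) (ℓ : ℤ) (i : ℕ) (t : ℕ → ℤ) (ht : Valid n p t) (j : ℕ)
    (hj : 1 ≤ j) (hjn : j + 1 < n) :
    refl n ℓ i t j - refl n ℓ i t (j + 1) = 1 ∨ refl n ℓ i t (j + 1) - refl n ℓ i t j = 1 := by
  have hw := ht.2 j hj hjn
  by_cases c1 : (1 ≤ j ∧ j < n) ∧ (∀ k, min i j ≤ k → k ≤ max i j → t k ≠ ℓ)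
  · have e1 : refl n ℓ i t j = 2 * ℓ - t j := by unfold refl; rw [if_pos c1]
    by_cases c2 : (1 ≤ j + 1 ∧ j + 1 < n) ∧
        (∀ k, min i (j + 1) ≤ k → k ≤ max i (j + 1) → t k ≠ ℓ)
    · have e2 : refl n ℓ i t (j + 1) = 2 * ℓ - t (j + 1) := by unfold refl; rw [if_pos c2]
      rw [e1, e2]; omega
    · have e2 : refl n ℓ i t (j + 1) = t (j + 1) := by unfold refl; rw [if_neg c2]
      have : t (j + 1) = ℓ := by
        by_contra hne
        apply c2
        refine ⟨⟨by omega, hjn⟩, ?_⟩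
        intro k hk1 hk2
        by_cases hk : k = j + 1
        · rw [hk]; exact hne
        · apply c1.2 k <;> omega
      rw [e1, e2]; omega
  · have e1 : refl n ℓ i t j = t j := by unfold refl; rw [if_neg c1]
    by_cases c2 : (1 ≤ j + 1 ∧ j + 1 < n) ∧
        (∀ k, min i (j + 1) ≤ k → k ≤ max i (j + 1) → t k ≠ ℓ)
    · have e2 : refl n ℓ i t (j + 1) = 2 * ℓ - t (j + 1) := by unfold refl; rw [if_pos c2]
      have : t j = ℓ := by
        by_contra hne
        apply c1
        refine ⟨⟨hj, by omega⟩, ?_⟩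
        intro k hk1 hk2
        by_cases hk : k = j
        · rw [hk]; exact hne
        · apply c2.2 k <;> omega
      rw [e1, e2]; omega
    · have e2 : refl n ℓ i t (j + 1) = t (j + 1) := by unfold refl; rw [if_neg c2]
      rw [e1, e2]; exact hw

/-- an excursion stays on one side of the level -/
lemma side_lt (n p : ℕ) (ℓ : ℤ) (i : ℕ) (t : ℕ → ℤ) (ht : Valid n p t) (hi : 1 ≤ i) (hin : i < n)
    (h0 : t i < ℓ) (j : ℕ) (hj : 1 ≤ j) (hjn : j < n)
    (hc : ∀ k, min i j ≤ k → k ≤ max i j → t k ≠ ℓ) : t j < ℓ := by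
  have up : ∀ d : ℕ, i + d < n → (∀ k, i ≤ k → k ≤ i + d → t k ≠ ℓ) → t (i + d) < ℓ := by
    intro d
    induction d with
    | zero => intro _ _; simpa using h0
    | succ d ih =>
      intro h1 h2
      have h3 := ih (by omega) (fun k a b => h2 k a (by omega))
      have h4 := ht.2 (i + d) (by omega) (by omega)
      have h5 := h2 (i + d + 1) (by omega) (by omega)
      rw [show i + (d + 1) = i + d + 1 by ring]
      omega
  have dn : ∀ d : ℕ, d < i → (∀ k, i - d ≤ k → k ≤ i → t k ≠ ℓ) → t (i - d) < ℓ := by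
    intro d
    induction d with
    | zero => intro _ _; simpa using h0
    | succ d ih =>
      intro h1 h2
      have h3 := ih (by omega) (fun k a b => h2 k (by omega) b)
      have h4 := ht.2 (i - (d + 1)) (by omega) (by omega)
      have h5 := h2 (i - (d + 1)) (by omega) (by omega)
      rw [show i - (d + 1) + 1 = i - d by omega] at h4
      omega
  rcases le_total i j with h | h
  · have := up (j - i) (by omega) (fun k a b => hc k (by omega) (by omega))
    rwa [show i + (j - i) = j by omega] at this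
  · have := dn (i - j) (by omega) (fun k a b => hc k (by omega) (by omega))
    rwa [show i - (i - j) = j by omega] at this

lemma side_gt (n p : ℕ) (ℓ : ℤ) (i : ℕ) (t : ℕ → ℤ) (ht : Valid n p t) (hi : 1 ≤ i) (hin : i < n)
    (h0 : ℓ < t i) (j : ℕ) (hj : 1 ≤ j) (hjn : j < n)
    (hc : ∀ k, min i j ≤ k → k ≤ max i j → t k ≠ ℓ) : ℓ < t j := by
  have up : ∀ d : ℕ, i + d < n → (∀ k, i ≤ k → k ≤ i + d → t k ≠ ℓ) → ℓ < t (i + d) := by
    intro d
    induction d with
    | zero => intro _ _; simpa using h0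
    | succ d ih =>
      intro h1 h2
      have h3 := ih (by omega) (fun k a b => h2 k a (by omega))
      have h4 := ht.2 (i + d) (by omega) (by omega)
      have h5 := h2 (i + d + 1) (by omega) (by omega)
      rw [show i + (d + 1) = i + d + 1 by ring]
      omega
  have dn : ∀ d : ℕ, d < i → (∀ k, i - d ≤ k → k ≤ i → t k ≠ ℓ) → ℓ < t (i - d) := by
    intro d
    induction d with
    | zero => intro _ _; simpa using h0
    | succ d ih =>
      intro h1 h2
      have h3 := ih (by omega) (fun k a b => h2 k (by omega) b)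
      have h4 := ht.2 (i - (d + 1)) (by omega) (by omega)
      have h5 := h2 (i - (d + 1)) (by omega) (by omega)
      rw [show i - (d + 1) + 1 = i - d by omega] at h4
      omega
  rcases le_total i j with h | h
  · have := up (j - i) (by omega) (fun k a b => hc k (by omega) (by omega))
    rwa [show i + (j - i) = j by omega] at this
  · have := dn (i - j) (by omega) (fun k a b => hc k (by omega) (by omega))
    rwa [show i - (i - j) = j by omega] at this

/-- lower half: crossings in the first `p` rows have been made in most states -/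
lemma count_low (n p : ℕ) (hn : 3 ≤ n) (hp : 1 ≤ p) (hpn : 2 * p ≤ n) (r : ℤ) (i : ℕ)
    (hi : 1 ≤ i) (hin : i < n) (hr : 1 ≤ r) (hrp : r ≤ p) (hpar : (r - i) % 2 = 0) :
    {t ∈ S n p | t i < r}.ncard < {t ∈ S n p | r ≤ t i}.ncard := by
  have hfin : {t ∈ S n p | r ≤ t i}.Finite := (S_finite n p hpn).subset (fun t ht => ht.1)
  set ℓ : ℤ := p - 1 with hℓ
  have hinj : Set.InjOn (refl n ℓ i) {t ∈ S n p | t i < r} := by
    intro a _ b _ h
    have := congrArg (refl n ℓ i) h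
    rwa [refl_refl, refl_refl] at this
  rw [← Set.ncard_image_of_injOn hinj]
  apply Set.ncard_lt_ncard _ hfin
  constructor
  · rintro _ ⟨t, ⟨⟨hv, h0⟩, hti⟩, rfl⟩
    have bi := hv.1 i hi hin
    have hti' : t i < ℓ := by omega
    have hci : (1 ≤ i ∧ i < n) ∧ (∀ k, min i i ≤ k → k ≤ max i i → t k ≠ ℓ) := by
      refine ⟨⟨hi, hin⟩, ?_⟩
      intro k h1 h2
      have : k = i := by omega
      rw [this]; omega
    refine ⟨⟨⟨?_, ?_⟩, ?_⟩, ?_⟩
    · intro j hj hjn
      have bj := hv.1 j hj hjn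
      by_cases hc : (1 ≤ j ∧ j < n) ∧ (∀ k, min i j ≤ k → k ≤ max i j → t k ≠ ℓ)
      · have e : refl n ℓ i t j = 2 * ℓ - t j := by unfold refl; rw [if_pos hc]
        have := side_lt n p ℓ i t hv hi hin hti' j hj hjn hc.2
        rw [e]; refine ⟨?_, ?_, ?_⟩ <;> omega
      · have e : refl n ℓ i t j = t j := by unfold refl; rw [if_neg hc]
        rw [e]; exact bj
    · intro j hj hjn
      exact refl_walk n p ℓ i t hv j hj hjn
    · intro j hj
      have e : refl n ℓ i t j = t j := by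
        unfold refl; rw [if_neg (fun h => hj h.1)]
      rw [e]; exact h0 j hj
    · have e : refl n ℓ i t i = 2 * ℓ - t i := by unfold refl; rw [if_pos hci]
      rw [e]; omega
  · intro hsub
    -- the highest walk
    let th : ℕ → ℤ := fun j => if 1 ≤ j ∧ j < n then 2 * (p : ℤ) - ((j % 2 : ℕ) : ℤ) else 0
    have hth : ∀ j, 1 ≤ j → j < n → th j = 2 * (p : ℤ) - ((j % 2 : ℕ) : ℤ) := by
      intro j h1 h2; simp only [th]; rw [if_pos ⟨h1, h2⟩]
    have hmem : th ∈ {t ∈ S n p | r ≤ t i} := by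
      refine ⟨⟨⟨?_, ?_⟩, ?_⟩, ?_⟩
      · intro j hj hjn
        rw [hth j hj hjn]
        refine ⟨?_, ?_, ?_⟩ <;> omega
      · intro j hj hjn
        rw [hth j hj (by omega), hth (j + 1) (by omega) hjn]
        omega
      · intro j hj
        simp only [th]; rw [if_neg hj]
      · rw [hth i hi hin]; omega
    obtain ⟨t, ⟨⟨hv, _⟩, _⟩, ht⟩ := hsub hmem
    have h2 : t = refl n ℓ i th := by rw [← ht, refl_refl]
    have h3 : refl n ℓ i th 2 = 2 * ℓ - th 2 := by
      unfold refl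
      rw [if_pos]
      refine ⟨⟨by omega, by omega⟩, ?_⟩
      intro k hk1 hk2
      rw [hth k (by omega) (by omega)]
      omega
    have h4 := (hv.1 2 (by omega) (by omega)).1
    rw [h2, h3, hth 2 (by omega) (by omega)] at h4
    omega

/-- upper half: crossings in the last `p` rows have been made in few states -/
lemma count_high (n p : ℕ) (hn : 3 ≤ n) (hp : 1 ≤ p) (hpn : 2 * p ≤ n) (r : ℤ) (i : ℕ)
    (hi : 1 ≤ i) (hin : i < n) (hr : p + 1 ≤ r) (hrp : r ≤ 2 * p) (hpar : (r - i) % 2 = 0) :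
    {t ∈ S n p | r ≤ t i}.ncard < {t ∈ S n p | t i < r}.ncard := by
  have hfin : {t ∈ S n p | t i < r}.Finite := (S_finite n p hpn).subset (fun t ht => ht.1)
  obtain ⟨ℓ, hℓ⟩ : ∃ ℓ : ℤ, ℓ = (p : ℤ) := ⟨_, rfl⟩
  have hinj : Set.InjOn (refl n ℓ i) {t ∈ S n p | r ≤ t i} := by
    intro a _ b _ h
    have := congrArg (refl n ℓ i) h
    rwa [refl_refl, refl_refl] at this
  rw [← Set.ncard_image_of_injOn hinj]
  apply Set.ncard_lt_ncard _ hfin
  constructor
  · rintro _ ⟨t, ⟨⟨hv, h0⟩, hti⟩, rfl⟩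
    have bi := hv.1 i hi hin
    have hti' : ℓ < t i := by omega
    have hci : (1 ≤ i ∧ i < n) ∧ (∀ k, min i i ≤ k → k ≤ max i i → t k ≠ ℓ) := by
      refine ⟨⟨hi, hin⟩, ?_⟩
      intro k h1 h2
      have : k = i := by omega
      rw [this]; omega
    refine ⟨⟨⟨?_, ?_⟩, ?_⟩, ?_⟩
    · intro j hj hjn
      have bj := hv.1 j hj hjn
      by_cases hc : (1 ≤ j ∧ j < n) ∧ (∀ k, min i j ≤ k → k ≤ max i j → t k ≠ ℓ)
      · have e : refl n ℓ i t j = 2 * ℓ - t j := by unfold refl; rw [if_pos hc]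
        have := side_gt n p ℓ i t hv hi hin hti' j hj hjn hc.2
        rw [e]; refine ⟨?_, ?_, ?_⟩ <;> omega
      · have e : refl n ℓ i t j = t j := by unfold refl; rw [if_neg hc]
        rw [e]; exact bj
    · intro j hj hjn
      exact refl_walk n p ℓ i t hv j hj hjn
    · intro j hj
      have e : refl n ℓ i t j = t j := by
        unfold refl; rw [if_neg (fun h => hj h.1)]
      rw [e]; exact h0 j hj
    · have e : refl n ℓ i t i = 2 * ℓ - t i := by unfold refl; rw [if_pos hci]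
      change refl n ℓ i t i < r
      rw [e]; omega
  · intro hsub
    -- the lowest walk
    let th : ℕ → ℤ := fun j => if 1 ≤ j ∧ j < n then - ((j % 2 : ℕ) : ℤ) else 0
    have hth : ∀ j, 1 ≤ j → j < n → th j = - ((j % 2 : ℕ) : ℤ) := by
      intro j h1 h2; simp only [th]; rw [if_pos ⟨h1, h2⟩]
    have hmem : th ∈ {t ∈ S n p | t i < r} := by
      refine ⟨⟨⟨?_, ?_⟩, ?_⟩, ?_⟩
      · intro j hj hjn
        rw [hth j hj hjn]
        refine ⟨?_, ?_, ?_⟩ <;> omega
      · intro j hj hjn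
        rw [hth j hj (by omega), hth (j + 1) (by omega) hjn]
        omega
      · intro j hj
        simp only [th]; rw [if_neg hj]
      · change th i < r
        rw [hth i hi hin]; omega
    obtain ⟨t, ⟨⟨hv, _⟩, _⟩, ht⟩ := hsub hmem
    have h2 : t = refl n ℓ i th := by rw [← ht, refl_refl]
    have h3 : refl n ℓ i th 1 = 2 * ℓ - th 1 := by
      unfold refl
      rw [if_pos]
      refine ⟨⟨by omega, by omega⟩, ?_⟩
      intro k hk1 hk2
      rw [hth k (by omega) (by omega)]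
      omega
    have h4 := (hv.1 1 (by omega) (by omega)).2.1
    rw [h2, h3, hth 1 (by omega) (by omega)] at h4
    omega

end BipartiteCoxeter
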