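import Pool.Agent.V11166.Bip.Basic

namespace BipartiteCoxeter

open Equiv

/-- state (heights) of a word -/
def st (n : ℕ) (u : List ℕ) : ℕ → ℤ := fun j =>
  if 1 ≤ j ∧ j < n then 2 * (u.count j : ℤ) - ((j % 2 : ℕ) : ℤ) else 0

def Good (n p : ℕ) (w : List ℕ) : Prop :=
  (∀ j ∈ w, 1 ≤ j ∧ j < n) ∧ ∀ u, u <+: w → Valid n p (st n u)

lemma Good.ofPre {n p : ℕ} {w u : List ℕ} (h : Good n p w) (hu : u <+: w) : Good n p u :=
  ⟨fun j hj => h.1 j (hu.subset hj), fun v hv => h.2 v (hv.trans hu)⟩

lemma Good.snoc {n p : ℕ} {u : List ℕ} {j : ℕ} (h : Good n p u) (hj : 1 ≤ j) (hjn : j < n)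
    (hv : Valid n p (st n (u ++ [j]))) : Good n p (u ++ [j]) := by
  refine ⟨?_, ?_⟩
  · intro k hk
    rw [List.mem_append] at hk
    rcases hk with hk | hk
    · exact h.1 k hk
    · simp at hk; subst hk; exact ⟨hj, hjn⟩
  · intro v hv'
    rcases List.prefix_concat_iff.mp hv' with h1 | h1
    · rw [h1]; exact hv
    · exact h.2 v h1

lemma st_snoc_self (n : ℕ) (u : List ℕ) (j : ℕ) (hj : 1 ≤ j) (hjn : j < n) :
    st n (u ++ [j]) j = st n u j + 2 := by
  unfold st
  rw [if_pos ⟨hj, hjn⟩, if_pos ⟨hj, hjn⟩, List.count_append]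
  simp
  ring

lemma st_snoc_ne (n : ℕ) (u : List ℕ) (j k : ℕ) (hk : k ≠ j) :
    st n (u ++ [j]) k = st n u k := by
  unfold st
  rw [List.count_append, List.count_singleton]
  simp [hk.symm]

lemma st_perm (n : ℕ) {u v : List ℕ} (h : u.Perm v) : st n u = st n v := by
  funext j
  unfold st
  rw [h.count_eq]

lemma wordProd_snoc (n : ℕ) (u : List ℕ) (j : ℕ) :
    wordProd n (u ++ [j]) = wordProd n u * s n j := by
  unfold wordProd
  simp

lemma wordProd_append (n : ℕ) (u v : List ℕ) :
    wordProd n (u ++ v) = wordProd n u * wordProd n v := by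
  unfold wordProd
  simp

lemma st_nil (n : ℕ) (j : ℕ) : st n [] j = if 1 ≤ j ∧ j < n then - ((j % 2 : ℕ) : ℤ) else 0 := by
  unfold st; simp

lemma Rep_nil (n : ℕ) : Rep n (st n []) (wordProd n []) := by
  intro i
  have hi := i.2
  have : wordProd n [] = 1 := by unfold wordProd; simp
  rw [this]
  simp only [Perm.coe_one, id]
  unfold tau
  split_ifs with a b
  · have hi0 : (i : ℕ) = 0 := by omega
    rw [hi0, st_nil]
    by_cases hn : 1 < n
    · rw [if_pos ⟨le_refl _, hn⟩]
      unfold V; norm_num
    · rw [if_neg (by omega)]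
      unfold V; norm_num
      split_ifs <;> omega
  · have hi1 : (i : ℕ) = n - 1 := by omega
    have hn1 : 1 < n := by omega
    rw [hi1, st_nil, if_pos ⟨by omega, by omega⟩]
    unfold V
    split_ifs <;> omega
  · rw [st_nil, st_nil, if_pos ⟨by omega, by omega⟩, if_pos ⟨by omega, by omega⟩]
    have : max (-(((i : ℕ) + 1 - 1) % 2 : ℕ) : ℤ) (-(((i : ℕ) + 1) % 2 : ℕ)) = 0 := by
      rcases Nat.even_or_odd' (i : ℕ) with ⟨k, hk | hk⟩
      · rw [max_eq_left] <;> omega
      · rw [max_eq_right] <;> omega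
    rw [this]
    unfold V
    split_ifs <;> omega

lemma Cross_nil (n p : ℕ) : Cross n p (st n []) (wordProd n []) := by
  intro a b hab
  have : wordProd n [] = 1 := by unfold wordProd; simp
  rw [this]
  simp only [inv_one, Perm.coe_one, id]
  constructor
  · intro h; exact absurd (lt_trans hab h) (lt_irrefl _)
  · rintro ⟨r, j, h1, h2, h3, h4, h5, h6, h7, h8⟩
    rw [st_nil, if_pos ⟨h1, h2⟩] at h8
    omega

lemma main_induct (n p : ℕ) (hpn : 2 * p ≤ n) (u : List ℕ) (h : Good n p u) :
    Rep n (st n u) (wordProd n u) ∧ Cross n p (st n u) (wordProd n u) := by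
  induction u using List.reverseRecOn with
  | nil => exact ⟨Rep_nil n, Cross_nil n p⟩
  | append_singleton u j ih =>
    have hu : Good n p u := h.ofPre (List.prefix_append _ _)
    obtain ⟨hj, hjn⟩ := h.1 j (by simp)
    have hv : Valid n p (st n u) := hu.2 u List.prefix_rfl
    have hv' : Valid n p (st n (u ++ [j])) := h.2 _ List.prefix_rfl
    obtain ⟨i1, i2⟩ := ih hu
    rw [wordProd_snoc]
    exact ⟨Rep_step n p hpn _ _ _ j hj hjn hv hv' (st_snoc_self n u j hj hjn)
        (fun k hk => st_snoc_ne n u j k hk) i1,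
      Cross_step n p hpn _ _ _ j hj hjn hv hv' (st_snoc_self n u j hj hjn)
        (fun k hk => st_snoc_ne n u j k hk) i1 i2⟩

/-! ### goodness is invariant under commutations -/

lemma Valid_mid {n p : ℕ} {u : List ℕ} {a b : ℕ} (hab : a + 2 ≤ b ∨ b + 2 ≤ a)
    (h0 : Valid n p (st n u)) (h2 : Valid n p (st n (u ++ [a] ++ [b]))) :
    Valid n p (st n (u ++ [b])) := by
  constructor
  · intro j hj hjn
    by_cases hjb : j = b
    · have e : st n (u ++ [b]) j = st n (u ++ [a] ++ [b]) j := by
        subst hjb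
        rw [st_snoc_self n _ _ hj hjn, st_snoc_self n _ _ hj hjn, st_snoc_ne n u a j (by omega)]
      rw [e]; exact h2.1 j hj hjn
    · rw [st_snoc_ne n u b j hjb]; exact h0.1 j hj hjn
  · intro j hj hjn
    by_cases hjb : j = b ∨ j + 1 = b
    · have hja : j ≠ a ∧ j + 1 ≠ a := by omega
      have e : ∀ k, (k = j ∨ k = j + 1) → st n (u ++ [b]) k = st n (u ++ [a] ++ [b]) k := by
        intro k hk
        by_cases hkb : k = b
        · subst hkb
          rw [st_snoc_self n _ _ (by omega) (by omega), st_snoc_self n _ _ (by omega) (by omega),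
            st_snoc_ne n u a k (by omega)]
        · rw [st_snoc_ne n _ b k hkb, st_snoc_ne n _ b k hkb, st_snoc_ne n u a k (by omega)]
      rw [e j (Or.inl rfl), e (j + 1) (Or.inr rfl)]
      exact h2.2 j hj hjn
    · rw [st_snoc_ne n u b j (by omega), st_snoc_ne n u b (j + 1) (by omega)]
      exact h0.2 j hj hjn

lemma Good_step {n p : ℕ} {w w' : List ℕ} (h : CommStep w w') (hw : Good n p w) :
    Good n p w' := by
  obtain ⟨l₁, l₂, a, b, hab⟩ := h
  -- induction on l₂ from the right
  induction l₂ using List.reverseRecOn with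
  | nil =>
    have g1 : Good n p l₁ := hw.ofPre (List.prefix_append _ _)
    have ha := hw.1 a (by simp)
    have hb := hw.1 b (by simp)
    have v2 : Valid n p (st n (l₁ ++ [a] ++ [b])) := by
      have := hw.2 _ List.prefix_rfl
      simpa using this
    have v0 := g1.2 _ List.prefix_rfl
    have g2 : Good n p (l₁ ++ [b]) := g1.snoc hb.1 hb.2 (Valid_mid hab v0 v2)
    have g3 : Good n p (l₁ ++ [b] ++ [a]) := by
      apply g2.snoc ha.1 ha.2
      have hp : (l₁ ++ [b] ++ [a]).Perm (l₁ ++ [a] ++ [b]) := by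
        rw [List.append_assoc, List.append_assoc]
        exact List.Perm.append_left _ (List.Perm.swap _ _ _)
      rw [st_perm n hp]; exact v2
    simpa using g3
  | append_singleton l c ih =>
    have e1 : l₁ ++ a :: b :: (l ++ [c]) = (l₁ ++ a :: b :: l) ++ [c] := by simp
    have e2 : l₁ ++ b :: a :: (l ++ [c]) = (l₁ ++ b :: a :: l) ++ [c] := by simp
    rw [e1] at hw
    rw [e2]
    have g := ih (hw.ofPre (List.prefix_append _ _))
    have hc := hw.1 c (by simp)
    apply g.snoc hc.1 hc.2
    have v := hw.2 _ List.prefix_rfl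
    have hp : ((l₁ ++ b :: a :: l) ++ [c]).Perm ((l₁ ++ a :: b :: l) ++ [c]) := by
      apply List.Perm.append_right
      exact List.Perm.append_left _ (List.Perm.swap _ _ _)
    rw [st_perm n hp]; exact v

lemma Good_class {n p : ℕ} {w w' : List ℕ} (hw : Good n p w) (h : w' ∈ CommClass w) :
    Good n p w' := by
  have h' : Relation.ReflTransGen CommStep w w' := h
  induction h' with
  | refl => exact hw
  | tail h1 h2 ih => exact Good_step h2 (ih h1)

/-! ### the words `blocks n R` are good -/

/-- state after the complete rows `1..R-1` and the columns `≤ k` of row `R` -/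
def T (n R k : ℕ) : ℕ → ℤ := fun j =>
  if 1 ≤ j ∧ j < n then
    (if j ≤ k then (if j % 2 = R % 2 then (R : ℤ) else R - 1)
     else (if j % 2 = R % 2 then (R : ℤ) - 2 else R - 1))
  else 0

lemma T_in (n R k j : ℕ) (hj : 1 ≤ j) (hjn : j < n) : T n R k j =
    (if j ≤ k then (if j % 2 = R % 2 then (R : ℤ) else R - 1)
     else (if j % 2 = R % 2 then (R : ℤ) - 2 else R - 1)) := by
  unfold T; rw [if_pos ⟨hj, hjn⟩]

lemma T_valid (n p R k : ℕ) (hR : 1 ≤ R) (hRp : R ≤ 2 * p) : Valid n p (T n R k) := by
  constructor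
  · intro j hj hjn
    rw [T_in n _ _ j hj hjn]
    split_ifs <;> (refine ⟨?_, ?_, ?_⟩ <;> omega)
  · intro j hj hjn
    rw [T_in n _ _ j hj (by omega), T_in n _ _ (j + 1) (by omega) hjn]
    split_ifs <;> omega

lemma row_good (n p R : ℕ) (hR : 1 ≤ R) (hRp : R ≤ 2 * p) (u : List ℕ) (hu : Good n p u)
    (hst : st n u = T n R 0) (k : ℕ) (hk : k ≤ n - 1) :
    Good n p (u ++ (List.range' 1 k).filter (fun j => j % 2 = R % 2)) ∧
    st n (u ++ (List.range' 1 k).filter (fun j => j % 2 = R % 2)) = T n R k := by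
  induction k with
  | zero => simpa using ⟨hu, hst⟩
  | succ k ih =>
    obtain ⟨ih1, ih2⟩ := ih (by omega)
    rw [List.range'_1_concat, List.filter_append, ← List.append_assoc]
    by_cases hc : (1 + k) % 2 = R % 2
    · have hf : List.filter (fun j => decide (j % 2 = R % 2)) [1 + k] = [1 + k] := by
        simp [hc]
      rw [hf]
      have hs : st n (u ++ List.filter (fun j => decide (j % 2 = R % 2)) (List.range' 1 k) ++
          [1 + k]) = T n R (k + 1) := by
        funext j
        by_cases hj : j = 1 + k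
        · subst hj
          rw [st_snoc_self n _ _ (by omega) (by omega), ih2]
          rw [T_in n _ _ _ (by omega) (by omega), T_in n _ _ _ (by omega) (by omega)]
          rw [if_neg (by omega), if_pos hc, if_pos (by omega), if_pos hc]
          ring
        · rw [st_snoc_ne n _ _ _ hj, ih2]
          unfold T
          split_ifs <;> omega
      refine ⟨?_, hs⟩
      apply ih1.snoc (by omega) (by omega)
      rw [hs]
      exact T_valid n p R (k + 1) hR hRp
    · have hf : List.filter (fun j => decide (j % 2 = R % 2)) [1 + k] = [] := by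
        simp [hc]
      rw [hf, List.append_nil]
      refine ⟨ih1, ?_⟩
      rw [ih2]
      funext j
      unfold T
      split_ifs <;> omega

lemma blocks_succ (n R : ℕ) : blocks n (R + 1) = blocks n R ++ block n (R + 1) := by
  unfold blocks
  rw [List.range'_1_concat, List.flatMap_append]
  simp [Nat.add_comm]

lemma blocks_good (n p R : ℕ) (hRp : R ≤ 2 * p) :
    Good n p (blocks n R) ∧ st n (blocks n R) = T n (R + 1) 0 := by
  induction R with
  | zero =>
    have h0 : blocks n 0 = [] := by unfold blocks; simp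
    have hs : st n (blocks n 0) = T n 1 0 := by
      funext j
      rw [h0, st_nil]
      unfold T
      split_ifs <;> omega
    refine ⟨⟨?_, ?_⟩, hs⟩
    · rw [h0]; simp
    · intro u hu
      rw [h0] at hu
      have : u = [] := List.prefix_nil.mp hu
      rw [this, ← h0, hs]
      constructor
      · intro j hj hjn
        rw [T_in n _ _ j hj hjn]
        split_ifs <;> (refine ⟨?_, ?_, ?_⟩ <;> omega)
      · intro j hj hjn
        rw [T_in n _ _ j hj (by omega), T_in n _ _ (j + 1) (by omega) hjn]
        split_ifs <;> omega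
  | succ R ih =>
    obtain ⟨i1, i2⟩ := ih (by omega)
    rw [blocks_succ]
    have := row_good n p (R + 1) (by omega) hRp (blocks n R) i1 i2 (n - 1) le_rfl
    refine ⟨this.1, ?_⟩
    have h2 := this.2
    unfold block
    rw [h2]
    funext j
    unfold T
    split_ifs <;> omega

end BipartiteCoxeter
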